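import Mathlib
import Pool.Agent.Y902.FD.Be

/-!
# Few solutions of `a x ^ p + b y ^ q = c z ^ r` with `S`-unit coefficients, counted by their bases

For every finite set `S` of primes, every `K` and every `ε > 0` there are `R` and `δ > 0` such that
for all large `Y` the `S`-solutions of `a x ^ p + b y ^ q = c z ^ r` with bases at most `Y`, with terms
at most `exp (Y ^ δ)`, and with large exponents, have at most `Y ^ ε` triples of terms. Large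
exponents: at least two of `p, q, r` are at least `R` (coefficients arbitrary), or all are at least
`2`, one is at least `R` and the coefficients are at most `Y ^ K`.

Method: the `p`-adic determinant method on the surfaces `a x ^ p + b y ^ q = c z ^ r` uniformly in
coefficients and exponents, a weighted Euler operator, and the tangent vectors of the curves so
obtained at the integral points.
-/

set_option autoImplicit false

namespace Pool.Agent.Results.MP_be1fae_nt.CountByBases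

/-- `S`-solutions of `a x ^ p + b y ^ q = c z ^ r` (the condition `1/p + 1/q + 1/r < 1` is not
imposed) -/
def SSolution (S : Finset ℕ) (a b c x y z : ℤ) (p q r : ℕ) : Prop :=
  0 < p ∧ 0 < q ∧ 0 < r ∧ a ≠ 0 ∧ b ≠ 0 ∧ c ≠ 0 ∧ x ≠ 0 ∧ y ≠ 0 ∧ z ≠ 0 ∧
    (∀ ℓ : ℕ, ℓ.Prime → (ℓ : ℤ) ∣ a * b * c → ℓ ∈ S) ∧
    Int.gcd ((Int.gcd (a * x) (b * y) : ℕ) : ℤ) (c * z) = 1 ∧
    a * x ^ p + b * y ^ q = c * z ^ r

/-- two of the exponents are at least `R`, or all exponents are at least `2`, one exponent is at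
least `R`, and the coefficients are at most `B` -/
def Large (R B : ℕ) (a b c : ℤ) (p q r : ℕ) : Prop :=
  (R ≤ p ∧ R ≤ q) ∨ (R ≤ p ∧ R ≤ r) ∨ (R ≤ q ∧ R ≤ r) ∨
    (2 ≤ p ∧ 2 ≤ q ∧ 2 ≤ r ∧ (R ≤ p ∨ R ≤ q ∨ R ≤ r) ∧ |a| ≤ B ∧ |b| ≤ B ∧ |c| ≤ B)

/-- the triples of terms, all at most `V` in absolute value, of the `S`-solutions with bases at most
`Y` in absolute value and with large exponents -/
def Terms (S : Finset ℕ) (Y R B : ℕ) (V : ℝ) : Set (ℤ × ℤ × ℤ) :=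
  {t | ∃ (a b c x y z : ℤ) (p q r : ℕ), SSolution S a b c x y z p q r ∧
    |x| ≤ Y ∧ |y| ≤ Y ∧ |z| ≤ Y ∧ Large R B a b c p q r ∧ t = (a * x ^ p, b * y ^ q, c * z ^ r) ∧
    |(t.1 : ℝ)| ≤ V ∧ |(t.2.1 : ℝ)| ≤ V ∧ |(t.2.2 : ℝ)| ≤ V}

/-- For every finite set `S` of primes, every `K` and every `ε > 0` there are `R`, `δ > 0` and `Y₀`
such that for `Y ≥ Y₀` there are at most `Y ^ ε` triples of terms in `Terms S Y R (Y ^ K) (exp (Y ^ δ))`. -/
theorem result (S : Finset ℕ) (K : ℕ) (ε : ℝ) (hε : 0 < ε) :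
    ∃ (R : ℕ) (δ : ℝ) (Y₀ : ℕ), 0 < δ ∧ ∀ Y : ℕ, Y₀ ≤ Y →
      (Terms S Y R (Y ^ K) (Real.exp ((Y : ℝ) ^ δ))).Finite ∧
      ((Terms S Y R (Y ^ K) (Real.exp ((Y : ℝ) ^ δ))).ncard : ℝ) ≤ (Y : ℝ) ^ ε := by
  obtain ⟨R, δ, Y₀, hδ, h⟩ := Pool.Agent.Y902.FD.unit_all S K ε hε
  refine ⟨R, δ, Y₀, hδ, fun Y hY => ?_⟩
  obtain ⟨h1, h2⟩ := h Y hY
  have hsub : Terms S Y R (Y ^ K) (Real.exp ((Y : ℝ) ^ δ)) ⊆
      Pool.Agent.Y902.FD.UnitTwo S Y R (Real.exp ((Y : ℝ) ^ δ)) ∪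
        Pool.Agent.Y902.FD.UnitOne S Y R ((Y : ℝ) ^ K) (Real.exp ((Y : ℝ) ^ δ)) := by
    rintro t ⟨a, b, c, x, y, z, p, q, r, ⟨hp, hq, hr, ha, hb, hc, hx, hy, hz, hS, hg, heq⟩, hxY, hyY,
      hzY, hL, rfl, t1, t2, t3⟩
    simp only at t1 t2 t3
    have hT : Pool.Agent.Y902.FD.Tm (Real.exp ((Y : ℝ) ^ δ)) (a * x ^ p, b * y ^ q, c * z ^ r) := by
      refine ⟨?_, ?_, ?_⟩
      · rw [Int.cast_abs]; exact t1
      · rw [Int.cast_abs]; exact t2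
      · rw [Int.cast_abs]; exact t3
    have hs : Pool.Agent.Y902.FD.Sl Y a b c x y z p q r :=
      ⟨ha, hb, hc, hx, hy, hz, hxY, hyY, hzY, hg, heq⟩
    have hB : ∀ d : ℤ, |d| ≤ ((Y ^ K : ℕ) : ℤ) → ((|d| : ℤ) : ℝ) ≤ (Y : ℝ) ^ K := by
      intro d hd
      have h1 : ((|d| : ℤ) : ℝ) ≤ (((Y ^ K : ℕ) : ℤ) : ℝ) := by exact_mod_cast hd
      refine h1.trans (le_of_eq ?_)
      push_cast
      rfl
    rcases hL with hL | hL | hL | ⟨p2, q2, r2, hL, aB, bB, cB⟩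
    · exact Or.inl ⟨hT, a, b, c, x, y, z, p, q, r, hs, hp, hq, hr, Or.inl hL, hS, rfl⟩
    · exact Or.inl ⟨hT, a, b, c, x, y, z, p, q, r, hs, hp, hq, hr, Or.inr (Or.inl hL), hS, rfl⟩
    · exact Or.inl ⟨hT, a, b, c, x, y, z, p, q, r, hs, hp, hq, hr, Or.inr (Or.inr hL), hS, rfl⟩
    · exact Or.inr ⟨hT, a, b, c, x, y, z, p, q, r, hs, p2, q2, r2, hL, hB a aB, hB b bB, hB c cB,
        hS, rfl⟩
  refine ⟨h1.subset hsub, le_trans ?_ h2⟩
  exact_mod_cast Set.ncard_le_ncard hsub h1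

end Pool.Agent.Results.MP_be1fae_nt.CountByBases
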