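import Mathlib
import Pool.Agent.Y353.SU.Box

/-!
# Generalised Fermat equations with smooth coefficients: power saving in boxes

There is an absolute constant `δ > 0` such that for all `K` and all `N ≥ N₀(K)` every box
`(a₁, a₁ + M₁] × (a₂, a₂ + M₂]` with sides at least `N` (and anywhere) contains at most `N ^ (-δ) M₁ M₂` pairs
`(A₁, A₂)` with a relation

  `a A₁ ^ p + b A₂ ^ q = c w ^ n`,

where the coefficients `a`, `b` are nonzero and composed of primes at most `(log N) ^ (1/25)`, the coefficient `c`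
is nonzero and composed of primes at most `(log N) ^ (9/10)`, the exponent `n` has a prime factor at most
`(log N) ^ K`, and `gcd (p, q) ≤ exp (√(log N) / 3)`. The coefficients, the third base `w` and the exponents are
otherwise free, no coprimality is assumed, and the coefficients are not bounded. In particular for every finite
set `S` of primes the `S`-solutions of `a x ^ p + b y ^ q = c z ^ r` are covered, with `A₁`, `A₂` the absolute
values of any two of the bases, if `N` is large in terms of `S` and `K`.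

The theorem is the same statement for `k`-tuples `A`, with two monomials in `A₁, …, A_k` instead of the powers
of `A₁` and `A₂`.
-/

set_option autoImplicit false

namespace Pool.Agent.Results.MP_be1fae_nt.SmoothCoefficients

/-- `a` is a nonzero integer, all of whose prime factors are at most `Y` -/
def Smooth (Y : ℝ) (a : ℤ) : Prop := a ≠ 0 ∧ ∀ p : ℕ, p.Prime → (p : ℤ) ∣ a → (p : ℝ) ≤ Y

/-- The `k`-tuple `A` has a relation `a ∏ A i ^ x i + b ∏ A i ^ y i = c w ^ n` with smooth coefficients `a`, `b`,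
`c` and an exponent `n` with a small prime factor, where no large number `r` divides all the differences
`y i - x i` (for `k = 2`, `x = (p, 0)`, `y = (0, q)`: `gcd (p, q)` is not large). -/
def Rel (k N K : ℕ) (A : Fin k → ℕ) : Prop :=
  ∃ (x y : Fin k → ℕ) (n : ℕ) (a b c w : ℤ),
    Smooth (Real.log N ^ (1 / 25 : ℝ)) a ∧ Smooth (Real.log N ^ (1 / 25 : ℝ)) b ∧
    Smooth (Real.log N ^ (9 / 10 : ℝ)) c ∧
    (∃ q : ℕ, q.Prime ∧ q ∣ n ∧ (q : ℝ) ≤ Real.log N ^ K) ∧
    (∀ r : ℕ, (∀ i, (r : ℤ) ∣ (y i : ℤ) - x i) → (r : ℝ) ≤ Real.exp (√(Real.log N) / 3)) ∧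
    a * ∏ i, (A i : ℤ) ^ x i + b * ∏ i, (A i : ℤ) ^ y i = c * w ^ n

theorem result : ∃ δ : ℝ, 0 < δ ∧ ∀ k K : ℕ, ∃ N₀ : ℕ, ∀ N : ℕ, N₀ ≤ N → ∀ a M : Fin k → ℕ,
    (∀ i, N ≤ M i) →
    (({A : Fin k → ℕ | (∀ i, a i < A i ∧ A i ≤ a i + M i) ∧ Rel k N K A}.ncard : ℕ) : ℝ) ≤
      (N : ℝ) ^ (-δ) * ∏ i, (M i : ℝ) := by
  obtain ⟨δ, hδ, -, h⟩ := Pool.Agent.Y353.SU.power_saving_smooth
  refine ⟨δ, hδ, fun k K => ?_⟩
  obtain ⟨N₀, g⟩ := h k K
  refine ⟨N₀, fun N hN a M hM => ?_⟩
  classical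
  have hfin : {A : Fin k → ℕ | (∀ i, a i < A i ∧ A i ≤ a i + M i) ∧ Rel k N K A}.Finite := by
    apply Set.Finite.subset (Set.Finite.pi' fun i => Set.finite_Ioc (a i) (a i + M i))
    rintro A ⟨hA, -⟩ i
    exact ⟨(hA i).1, (hA i).2⟩
  rw [Set.ncard_eq_toFinset_card _ hfin]
  apply g N hN a M hM
  intro A hA
  rw [Set.Finite.mem_toFinset] at hA
  obtain ⟨h1, x, y, n, a', b', c', w, h2, h3, h4, ⟨q, hq, hqn, hqK⟩, h5, h6⟩ := hA
  refine ⟨h1, n, q, hq, hqn, hqK, fun i => lt_of_le_of_lt (Nat.zero_le _) (h1 i).1, x, y, a', b', c', w,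
    h2, h3, h4, fun r hr => ?_, h6⟩
  exact Nat.le_floor (h5 r hr)

end Pool.Agent.Results.MP_be1fae_nt.SmoothCoefficients
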