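import Pool.Agent.Y985.Kept.AllSolutionsByBases
import Pool.Agent.Y854.GM.Win

/-!
# Windows without solutions of the generalised Fermat equation with S-unit coefficients

A solution `a x ^ p + b y ^ q = c z ^ r` with coefficients composed of primes of `S` is called reduced if no prime of `S`
divides `x y z` and `|x|`, `|y|`, `|z|` are `1` or no perfect powers; every solution becomes reduced if the primes of `S`
in the bases are moved to the coefficients and perfect powers to the exponents (which become larger).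

Let `v ≥ 1` be a sequence with exponent of convergence at most `τ` (for `v_k = k ^ b` this is `1 / b`, for `v_k = b ^ k`
or `k!` it is `0`) and `θ < 1`. For all `α > 0` outside a set of Hausdorff dimension at most `(1 / 3 + τ) / (1 - θ)` there
is `R` such that for all but finitely many `k` there is no reduced solution with two exponents `≥ R` and
`||x y z| - α v_k| ≤ v_k ^ θ`. If `2 ∉ S`, then for all `α > 0` outside a set of dimension at most `τ / (1 - θ)` there is
`R` such that for all but finitely many `k` there is no reduced solution with two exponents `≥ R` and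
`|max (|x|, |y|, |z|) - α v_k| ≤ v_k ^ θ`.
-/

set_option autoImplicit false

open Finset Filter Topology
open scoped ENNReal

namespace Pool.Agent.Results.MP_be1fae_nt.WindowsWithoutSolutions

open AllSolutionsByBases (Solution TwoLarge ByBases ByProduct Bases)

/-- the exponent of convergence of the sequence `v` is at most `τ` -/
def ExpLe (v : ℕ → ℝ) (τ : ℝ) : Prop := ∀ t : ℝ, τ < t → Summable (fun n : ℕ => (v n) ^ (-t))

/-- `m` is `1` or no perfect power -/
def NoPower (m : ℕ) : Prop := m = 1 ∨ ∀ w j : ℕ, m = w ^ j → j = 1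

/-- reduced `S`-solutions with at least two exponents `≥ R` -/
def Reduced (S : Finset ℕ) (R : ℕ) (a b c x y z : ℤ) (p q r : ℕ) : Prop :=
  Solution a b c x y z p q r ∧ (∀ l : ℕ, l.Prime → (l : ℤ) ∣ a * b * c → l ∈ S) ∧
    (∀ l : ℕ, l.Prime → (l : ℤ) ∣ x * y * z → l ∉ S) ∧
    NoPower x.natAbs ∧ NoPower y.natAbs ∧ NoPower z.natAbs ∧ TwoLarge R p q r

/-- the base of a term is determined by the term -/
lemma base_unique (S : Finset ℕ) {a a' x x' : ℤ} {p p' : ℕ} (hp : 0 < p) (hp' : 0 < p')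
    (ha : ∀ l : ℕ, l.Prime → (l : ℤ) ∣ a → l ∈ S) (ha' : ∀ l : ℕ, l.Prime → (l : ℤ) ∣ a' → l ∈ S)
    (hx : ∀ l : ℕ, l.Prime → (l : ℤ) ∣ x → l ∉ S) (hx' : ∀ l : ℕ, l.Prime → (l : ℤ) ∣ x' → l ∉ S)
    (h1 : NoPower x.natAbs) (h2 : NoPower x'.natAbs) (h : a * x ^ p = a' * x' ^ p') : x.natAbs = x'.natAbs := by
  have hN : a.natAbs * x.natAbs ^ p = a'.natAbs * x'.natAbs ^ p' := by
    have h3 := congrArg Int.natAbs h
    rwa [Int.natAbs_mul, Int.natAbs_mul, Int.natAbs_pow, Int.natAbs_pow] at h3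
  have cop : ∀ {u w : ℤ} (k : ℕ), (∀ l : ℕ, l.Prime → (l : ℤ) ∣ u → l ∈ S) →
      (∀ l : ℕ, l.Prime → (l : ℤ) ∣ w → l ∉ S) → Nat.Coprime (w.natAbs ^ k) u.natAbs := by
    intro u w k hu hw
    apply Nat.Coprime.pow_left
    apply Nat.coprime_of_dvd
    intro l hl e1 e2
    rw [← Int.natCast_dvd] at e1 e2
    exact hw l hl e1 (hu l hl e2)
  have d1 : x.natAbs ^ p ∣ x'.natAbs ^ p' := by
    apply (cop p ha' hx).dvd_of_dvd_mul_left
    rw [← hN]
    exact Dvd.intro_left _ rfl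
  have d2 : x'.natAbs ^ p' ∣ x.natAbs ^ p := by
    apply (cop p' ha hx').dvd_of_dvd_mul_left
    rw [hN]
    exact Dvd.intro_left _ rfl
  have heq : x.natAbs ^ p = x'.natAbs ^ p' := Nat.dvd_antisymm d1 d2
  obtain ⟨w, hw1, hw2⟩ := Nat.exists_eq_pow_of_pow_eq_pow (Or.inl hp.ne') heq
  have hg : 0 < Nat.gcd p p' := Nat.gcd_pos_of_pos_left _ hp
  have e1 : p' / Nat.gcd p p' ≠ 0 := (Nat.div_pos (Nat.le_of_dvd hp' (Nat.gcd_dvd_right p p')) hg).ne'
  have e2 : p / Nat.gcd p p' ≠ 0 := (Nat.div_pos (Nat.le_of_dvd hp (Nat.gcd_dvd_left p p')) hg).ne'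
  rcases h1 with h1 | h1
  · have h3 : w = 1 := by
      rw [h1] at hw1
      exact (Nat.pow_eq_one.1 hw1.symm).resolve_right e1
    rw [h1, hw2, h3, one_pow]
  · rcases h2 with h2 | h2
    · have h3 : w = 1 := by
        rw [h2] at hw2
        exact (Nat.pow_eq_one.1 hw2.symm).resolve_right e2
      rw [h2, hw1, h3, one_pow]
    · have f1 := h1 _ _ hw1
      have f2 := h2 _ _ hw2
      rw [f1, pow_one] at hw1
      rw [f2, pow_one] at hw2
      rw [hw1, hw2]

/-- the bases of a reduced solution are determined by its terms -/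
lemma bases_unique {S : Finset ℕ} {R : ℕ} {a b c x y z a' b' c' x' y' z' : ℤ} {p q r p' q' r' : ℕ}
    (h : Reduced S R a b c x y z p q r) (h' : Reduced S R a' b' c' x' y' z' p' q' r')
    (e1 : a * x ^ p = a' * x' ^ p') (e2 : b * y ^ q = b' * y' ^ q') (e3 : c * z ^ r = c' * z' ^ r') :
    x.natAbs = x'.natAbs ∧ y.natAbs = y'.natAbs ∧ z.natAbs = z'.natAbs := by
  obtain ⟨⟨-, -, -, -, -, -, -, hp, hq, hr, -⟩, hS, hT, n1, n2, n3, -⟩ := h
  obtain ⟨⟨-, -, -, -, -, -, -, hp', hq', hr', -⟩, hS', hT', n1', n2', n3', -⟩ := h'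
  refine ⟨base_unique S hp hp' (fun l hl hd => hS l hl ?_) (fun l hl hd => hS' l hl ?_)
      (fun l hl hd => hT l hl ?_) (fun l hl hd => hT' l hl ?_) n1 n1' e1,
    base_unique S hq hq' (fun l hl hd => hS l hl ?_) (fun l hl hd => hS' l hl ?_)
      (fun l hl hd => hT l hl ?_) (fun l hl hd => hT' l hl ?_) n2 n2' e2,
    base_unique S hr hr' (fun l hl hd => hS l hl ?_) (fun l hl hd => hS' l hl ?_)
      (fun l hl hd => hT l hl ?_) (fun l hl hd => hT' l hl ?_) n3 n3' e3⟩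
  · exact (hd.mul_right b).mul_right c
  · exact (hd.mul_right b').mul_right c'
  · exact (hd.mul_right y).mul_right z
  · exact (hd.mul_right y').mul_right z'
  · exact (hd.mul_left a).mul_right c
  · exact (hd.mul_left a').mul_right c'
  · exact (hd.mul_left x).mul_right z
  · exact (hd.mul_left x').mul_right z'
  · exact hd.mul_left (a * b)
  · exact hd.mul_left (a' * b')
  · exact hd.mul_left (x * y)
  · exact hd.mul_left (x' * y')

/-- the values of a size `f (|x|, |y|, |z|)` at the reduced solutions -/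
def Val (S : Finset ℕ) (R : ℕ) (f : ℕ → ℕ → ℕ → ℕ) : Set ℕ :=
  {m | ∃ (a b c x y z : ℤ) (p q r : ℕ), Reduced S R a b c x y z p q r ∧ m = f x.natAbs y.natAbs z.natAbs}

open Classical in
/-- the number of the values is at most the number of the triples of terms -/
lemma card_val (S : Finset ℕ) (R : ℕ) (f : ℕ → ℕ → ℕ → ℕ) (X : ℕ) (U : Set (ℤ × ℤ × ℤ)) (hU : U.Finite)
    (hmem : ∀ (a b c x y z : ℤ) (p q r : ℕ), Reduced S R a b c x y z p q r →
      f x.natAbs y.natAbs z.natAbs ≤ X → (a * x ^ p, b * y ^ q, c * z ^ r) ∈ U) :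
    ((Ioc 0 X).filter (fun t => t ∈ Val S R f)).card ≤ U.ncard := by
  have hch : ∀ m : ℕ, ∃ s : (ℤ × ℤ × ℤ) × (ℤ × ℤ × ℤ) × (ℕ × ℕ × ℕ), m ∈ Val S R f →
      Reduced S R s.1.1 s.1.2.1 s.1.2.2 s.2.1.1 s.2.1.2.1 s.2.1.2.2 s.2.2.1 s.2.2.2.1 s.2.2.2.2 ∧
        m = f s.2.1.1.natAbs s.2.1.2.1.natAbs s.2.1.2.2.natAbs := by
    intro m
    by_cases h : m ∈ Val S R f
    · obtain ⟨a, b, c, x, y, z, p, q, r, h1, h2⟩ := h
      exact ⟨((a, b, c), (x, y, z), (p, q, r)), fun _ => ⟨h1, h2⟩⟩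
    · exact ⟨((0, 0, 0), (0, 0, 0), (0, 0, 0)), fun h' => absurd h' h⟩
  choose g hg using hch
  set F : ℕ → ℤ × ℤ × ℤ := fun m => ((g m).1.1 * (g m).2.1.1 ^ (g m).2.2.1,
    (g m).1.2.1 * (g m).2.1.2.1 ^ (g m).2.2.2.1, (g m).1.2.2 * (g m).2.1.2.2 ^ (g m).2.2.2.2) with hF
  rw [← Set.ncard_coe_finset]
  apply Set.ncard_le_ncard_of_injOn F _ _ hU
  · intro m hm
    rw [mem_coe, mem_filter, mem_Ioc] at hm
    obtain ⟨h1, h2⟩ := hg m hm.2
    exact hmem _ _ _ _ _ _ _ _ _ h1 (by rw [← h2]; exact hm.1.2)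
  · intro m hm m' hm' he
    rw [mem_coe, mem_filter] at hm hm'
    obtain ⟨h1, h2⟩ := hg m hm.2
    obtain ⟨h1', h2'⟩ := hg m' hm'.2
    rw [hF] at he
    simp only [Prod.mk.injEq] at he
    obtain ⟨e1, e2, e3⟩ := bases_unique h1 h1' he.1 he.2.1 he.2.2
    rw [h2, h2', e1, e2, e3]

lemma inter_dim {s τ θ : ℝ} (G : ℕ → Set ℝ)
    (hG : ∀ m : ℕ, dimH (G m) ≤ ENNReal.ofReal ((s + 1 / ((m : ℝ) + 1) + τ) / (1 - θ))) :
    dimH (⋂ m, G m) ≤ ENNReal.ofReal ((s + τ) / (1 - θ)) := by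
  have hlim : Tendsto (fun m : ℕ => ENNReal.ofReal ((s + 1 / ((m : ℝ) + 1) + τ) / (1 - θ))) atTop
      (𝓝 (ENNReal.ofReal ((s + 0 + τ) / (1 - θ)))) :=
    ENNReal.tendsto_ofReal (((tendsto_one_div_add_atTop_nhds_zero_nat.const_add s).add_const τ).div_const (1 - θ))
  rw [add_zero] at hlim
  exact ge_of_tendsto' hlim fun m => (dimH_mono (Set.iInter_subset _ m)).trans (hG m)

/-- **Theorem.** Let `S` be a finite set, `v ≥ 1` a sequence of exponent of convergence at most `τ ≥ 0` and `θ < 1`. There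
is a set `E` of Hausdorff dimension at most `(1 / 3 + τ) / (1 - θ)` such that for each `α > 0` outside `E` there is `R`
such that for all but finitely many `k` there is no reduced `S`-solution `a x ^ p + b y ^ q = c z ^ r` with at least two
exponents `≥ R` and `||x y z| - α v_k| ≤ v_k ^ θ`. If `2 ∉ S`, there is a set `E` of dimension at most `τ / (1 - θ)` such
that for each `α > 0` outside `E` there is `R` such that for all but finitely many `k` there is no reduced `S`-solution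
with at least two exponents `≥ R` and `|max (|x|, |y|, |z|) - α v_k| ≤ v_k ^ θ`. The sequences `v_k = (k + 1) ^ b` and
`v_k = b ^ k` have exponent of convergence at most `1 / b` and `0`. -/
theorem result :
    (∀ (S : Finset ℕ) (v : ℕ → ℝ) (τ θ : ℝ), (∀ k, 1 ≤ v k) → 0 ≤ τ → ExpLe v τ → θ < 1 →
      (∃ E : Set ℝ, dimH E ≤ ENNReal.ofReal ((1 / 3 + τ) / (1 - θ)) ∧
        ∀ α : ℝ, 0 < α → α ∉ E → ∃ R k₀ : ℕ, ∀ k : ℕ, k₀ ≤ k → ∀ (a b c x y z : ℤ) (p q r : ℕ),
          Reduced S R a b c x y z p q r → (v k) ^ θ < |(((x * y * z).natAbs : ℕ) : ℝ) - α * v k|) ∧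
      (2 ∉ S → ∃ E : Set ℝ, dimH E ≤ ENNReal.ofReal (τ / (1 - θ)) ∧
        ∀ α : ℝ, 0 < α → α ∉ E → ∃ R k₀ : ℕ, ∀ k : ℕ, k₀ ≤ k → ∀ (a b c x y z : ℤ) (p q r : ℕ),
          Reduced S R a b c x y z p q r →
            (v k) ^ θ < |((max (max x.natAbs y.natAbs) z.natAbs : ℕ) : ℝ) - α * v k|)) ∧
    (∀ b : ℝ, 0 < b → ExpLe (fun n : ℕ => ((n : ℝ) + 1) ^ b) (1 / b)) ∧
    (∀ b : ℝ, 1 < b → ExpLe (fun n : ℕ => b ^ n) 0) := by
  classical
  refine ⟨fun S v τ θ hv hτ hE hθ1 => ⟨?_, fun h2 => ?_⟩, fun κ hκ => Pool.Agent.Y854.GM.expLe_pow κ hκ,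
    fun b hb => Pool.Agent.Y854.GM.expLe_geom b hb⟩
  · have hall : ∀ j : ℕ, ∃ (R : ℕ) (E : Set ℝ),
        dimH E ≤ ENNReal.ofReal ((1 / 3 + 1 / ((j : ℝ) + 1) + τ) / (1 - θ)) ∧
        ∀ α : ℝ, 0 < α → α ∉ E → ∃ k₀ : ℕ, ∀ k : ℕ, k₀ ≤ k → ∀ m : ℕ, |(m : ℝ) - α * v k| ≤ (v k) ^ θ →
          0 < m ∧ m ∉ Val S R (fun x y z => x * y * z) := by
      intro j
      obtain ⟨R, C, hC, h⟩ := AllSolutionsByBases.result.2.2 S (1 / ((j : ℝ) + 1)) (by positivity)
      obtain ⟨E, h3, h4⟩ := Pool.Agent.Y854.GM.win_nat (Val S R (fun x y z => x * y * z)) hv hτ hE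
        (s := 1 / 3 + 1 / ((j : ℝ) + 1)) (by positivity) hθ1 (fun ε hε => by
          refine ⟨C, fun X hX => ?_⟩
          have hX1 : (1 : ℝ) ≤ X := by exact_mod_cast hX
          obtain ⟨h5, h6⟩ := h X hX1
          have h7 := card_val S R (fun x y z => x * y * z) X (ByProduct S R X) h5 (by
            intro a b c x y z p q r hred hle
            refine ⟨a, b, c, x, y, z, p, q, r, hred.1, rfl, hred.2.1, hred.2.2.2.2.2.2, ?_⟩
            have h8 : ((x.natAbs * y.natAbs * z.natAbs : ℕ) : ℝ) ≤ X := by exact_mod_cast hle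
            rw [← Int.natAbs_mul, ← Int.natAbs_mul, Nat.cast_natAbs, Int.cast_abs] at h8
            exact h8)
          have h9 : (((Ioc 0 X).filter (fun t => t ∈ Val S R (fun x y z => x * y * z))).card : ℝ) ≤
              ((ByProduct S R X).ncard : ℝ) := by exact_mod_cast h7
          refine h9.trans (h6.trans ?_)
          apply mul_le_mul_of_nonneg_left _ hC.le
          apply Real.rpow_le_rpow_of_exponent_le hX1
          linarith)
      exact ⟨R, E, h3, h4⟩
    choose R G hG1 hG2 using hall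
    refine ⟨⋂ m, G m, inter_dim G hG1, fun α hα hαE => ?_⟩
    rw [Set.mem_iInter] at hαE
    push Not at hαE
    obtain ⟨j, hj⟩ := hαE
    obtain ⟨k₀, hk⟩ := hG2 j α hα hj
    refine ⟨R j, k₀, fun k hk1 a b c x y z p q r hred => ?_⟩
    by_contra hcon
    push Not at hcon
    refine (hk k hk1 _ hcon).2 ⟨a, b, c, x, y, z, p, q, r, hred, ?_⟩
    rw [Int.natAbs_mul, Int.natAbs_mul]
  · have hall : ∀ j : ℕ, ∃ (R : ℕ) (E : Set ℝ),
        dimH E ≤ ENNReal.ofReal ((0 + 1 / ((j : ℝ) + 1) + τ) / (1 - θ)) ∧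
        ∀ α : ℝ, 0 < α → α ∉ E → ∃ k₀ : ℕ, ∀ k : ℕ, k₀ ≤ k → ∀ m : ℕ, |(m : ℝ) - α * v k| ≤ (v k) ^ θ →
          0 < m ∧ m ∉ Val S R (fun x y z => max (max x y) z) := by
      intro j
      obtain ⟨R, C, hC, h⟩ := AllSolutionsByBases.result.2.1 S (1 / ((j : ℝ) + 1)) h2 (by positivity)
      obtain ⟨E, h3, h4⟩ := Pool.Agent.Y854.GM.win_nat (Val S R (fun x y z => max (max x y) z)) hv hτ hE
        (s := 0 + 1 / ((j : ℝ) + 1)) (by positivity) hθ1 (fun ε hε => by
          refine ⟨C, fun X hX => ?_⟩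
          have hX1 : (1 : ℝ) ≤ X := by exact_mod_cast hX
          obtain ⟨h5, h6⟩ := h X hX1
          have h7 := card_val S R (fun x y z => max (max x y) z) X (ByBases S R X) h5 (by
            intro a b c x y z p q r hred hle
            have hb : ∀ u : ℤ, u.natAbs ≤ X → |(u : ℝ)| ≤ X := by
              intro u hu
              have h8 : ((u.natAbs : ℕ) : ℝ) ≤ X := by exact_mod_cast hu
              rwa [Nat.cast_natAbs, Int.cast_abs] at h8
            have hle' : max (max x.natAbs y.natAbs) z.natAbs ≤ X := hle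
            rw [max_le_iff, max_le_iff] at hle'
            exact ⟨a, b, c, x, y, z, p, q, r, hred.1, rfl, hred.2.1, hred.2.2.2.2.2.2,
              hb x hle'.1.1, hb y hle'.1.2, hb z hle'.2⟩)
          have h9 : (((Ioc 0 X).filter (fun t => t ∈ Val S R (fun x y z => max (max x y) z))).card : ℝ) ≤
              ((ByBases S R X).ncard : ℝ) := by exact_mod_cast h7
          refine h9.trans (h6.trans ?_)
          apply mul_le_mul_of_nonneg_left _ hC.le
          apply Real.rpow_le_rpow_of_exponent_le hX1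
          linarith)
      exact ⟨R, E, h3, h4⟩
    choose R G hG1 hG2 using hall
    have hdim := inter_dim (s := 0) G hG1
    rw [zero_add] at hdim
    refine ⟨⋂ m, G m, hdim, fun α hα hαE => ?_⟩
    rw [Set.mem_iInter] at hαE
    push Not at hαE
    obtain ⟨j, hj⟩ := hαE
    obtain ⟨k₀, hk⟩ := hG2 j α hα hj
    refine ⟨R j, k₀, fun k hk1 a b c x y z p q r hred => ?_⟩
    by_contra hcon
    push Not at hcon
    exact (hk k hk1 _ hcon).2 ⟨a, b, c, x, y, z, p, q, r, hred, rfl⟩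

end Pool.Agent.Results.MP_be1fae_nt.WindowsWithoutSolutions
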